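import Mathlib

set_option autoImplicit false
open Finset Filter Topology RealInnerProductSpace

namespace Pool.Agent.H.MP_749e55_an

variable {H : Type} [NormedAddCommGroup H] [InnerProductSpace ℝ H]

lemma ab4 {x c : ℝ} (hc : 0 ≤ c) (h : x ^ 4 ≤ c ^ 4) : |x| ≤ c :=
  le_of_pow_le_pow_left₀ (n := 4) (by norm_num) hc (by rwa [Even.pow_abs (by decide)])

lemma idn (s : Finset ℕ) (u : ℕ → H) : ∑ i ∈ s, ∑ j ∈ s, ‖u i - u j‖ ^ 2 =
    2 * s.card * ∑ i ∈ s, ‖u i‖ ^ 2 - 2 * ‖∑ i ∈ s, u i‖ ^ 2 := by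
  rw [← real_inner_self_eq_norm_sq (∑ i ∈ s, u i), sum_inner]
  simp only [norm_sub_sq_real, sum_add_distrib, sum_sub_distrib, sum_const, nsmul_eq_mul, ← mul_sum,
    inner_sum]
  ring

lemma fin {Q : Set (H × ℝ)} {z : H} (hz : ‖z‖ ^ 2 ≤ 1.8)
    (sep : ∀ p ∈ Q, ∀ q ∈ Q, p ≠ q → 16 ≤ ‖p.1 - q.1‖ ^ 4 + (p.2 - q.2) ^ 4)
    (h0 : ∀ q ∈ Q, 16 ≤ ‖q.1‖ ^ 4 + q.2 ^ 4)
    (h : ∀ q ∈ Q, ∃ w : H, ‖w‖ ≤ 1e-7 ∧ ‖q.1 - z - w‖ ^ 4 + (q.2 - 1) ^ 4 ≤ 4.000004) : Q.Finite := by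
  by_contra hQ
  let f := Set.Infinite.natEmbedding Q hQ
  obtain ⟨t, -, φ, hφ, ht⟩ := tendsto_subseq_of_bounded (Metric.isBounded_Icc (-1 : ℝ) 3)
    (x := fun n => (f n).1.2) fun n => by
      obtain ⟨w, -, hw⟩ := h _ (f n).2
      have := abs_le.1 (ab4 (x := (f n).1.2 - 1) zero_le_two (by
        linarith [pow_nonneg (norm_nonneg ((f n).1.1 - z - w)) 4]))
      constructor <;> linarith [this.1, this.2]
  obtain ⟨N, hN⟩ := Metric.tendsto_atTop.1 ht 0.005 (by norm_num)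
  obtain ⟨q, hq, qi, qt⟩ : ∃ q : ℕ → H × ℝ, (∀ n, q n ∈ Q) ∧ q.Injective ∧ ∀ n, |(q n).2 - t| < 0.005 :=
    ⟨fun n => f (φ (N + n)), fun n => (f _).2, fun a b e => by
      simpa using hφ.injective (f.injective (Subtype.ext e)), fun n => hN _ (by omega)⟩
  obtain ⟨m, hm⟩ : ∃ m : ℕ, (m : ℝ) = 10000000 := ⟨10000000, by norm_num⟩
  let u := fun i => (q i).1 - z
  have a : ∀ i, ‖u i‖ ^ 2 ≤ 2.0000014 ∧ (1.9999997 ≤ ‖u i‖ ^ 2 → |(q i).2 - 1| ≤ 0.06) := fun i => by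
    obtain ⟨w, w1, hw⟩ := h _ (hq i)
    have b : ‖u i‖ ≤ ‖u i - w‖ + 1e-7 := by linarith [norm_sub_norm_le (u i) w]
    have n0 := norm_nonneg (u i - w)
    have c : ‖u i - w‖ ^ 2 ≤ 2.000001 := by
      have : 0 ≤ ((q i).2 - 1) ^ 4 := by positivity
      nlinarith
    have d : ‖u i‖ ^ 2 ≤ ‖u i - w‖ ^ 2 + 4e-7 := by
      have : ‖u i - w‖ ≤ 1.5 := by nlinarith
      nlinarith [norm_nonneg (u i)]
    exact ⟨by linarith, fun e => ab4 (by norm_num) (by nlinarith)⟩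
  have b : m * ((m - 1) * (4 - 1e-8)) ≤ ∑ i ∈ range m, ∑ j ∈ range m, ‖u i - u j‖ ^ 2 := by
    refine le_trans (by simp) (card_nsmul_le_sum _ _ ((m - 1) * (4 - 1e-8) : ℝ) fun i hi => ?_)
    refine le_trans ?_ ((card_nsmul_le_sum ((range m).erase i) _ (4 - 1e-8) fun j hj => ?_).trans
      (sum_le_sum_of_subset_of_nonneg (erase_subset _ _) fun _ _ _ => by positivity))
    · rw [nsmul_eq_mul, cast_card_erase_of_mem hi, card_range]
    · have := sep _ (hq i) _ (hq j) (qi.ne (ne_of_mem_erase hj).symm)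
      have c : ((q i).2 - (q j).2) ^ 4 ≤ 0.01 ^ 4 := by
        rw [← Even.pow_abs (by decide)]
        gcongr
        rw [abs_le]; constructor <;> linarith [abs_lt.1 (qt i), abs_lt.1 (qt j)]
      rw [show u i - u j = (q i).1 - (q j).1 by simp [u]]
      nlinarith [sq_nonneg ‖(q i).1 - (q j).1‖]
  rw [idn, card_range] at b
  have c : ∑ i ∈ range m, ‖u i‖ ^ 2 ≤ m * 2.0000014 := by
    simpa using sum_le_card_nsmul (range m) _ _ fun i _ => (a i).1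
  have s0 := norm_nonneg (∑ i ∈ range m, u i)
  obtain ⟨i, hi⟩ : ∃ i, 1.9999997 ≤ ‖u i‖ ^ 2 := by
    by_contra! hh
    have : ∑ i ∈ range m, ‖u i‖ ^ 2 ≤ m * 1.9999997 := by
      simpa using sum_le_card_nsmul (range m) _ _ fun i _ => (hh i).le
    rw [hm] at *
    nlinarith
  have d : m * 3.83 ≤ ∑ j ∈ range m, ‖z + u j‖ ^ 2 := by
    refine le_trans (by simp) (card_nsmul_le_sum _ _ (3.83 : ℝ) fun j _ => ?_)
    have := h0 _ (hq j)
    have c : (q j).2 ^ 4 ≤ 1.07 ^ 4 := by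
      rw [← Even.pow_abs (by decide)]
      gcongr
      rw [abs_le]
      constructor <;> linarith [abs_lt.1 (qt i), abs_lt.1 (qt j), abs_le.1 ((a i).2 hi)]
    rw [show z + u j = (q j).1 by simp [u]]
    nlinarith [sq_nonneg ‖(q j).1‖]
  simp only [norm_add_sq_real, sum_add_distrib, sum_const, card_range, nsmul_eq_mul, ← mul_sum,
    ← inner_sum] at d
  have e := real_inner_le_norm z (∑ i ∈ range m, u i)
  have z1 : ‖z‖ ≤ 1.35 := by nlinarith [norm_nonneg z]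
  rw [hm] at *
  have s1 : ‖∑ i ∈ range m, u i‖ ≤ 14000 := by nlinarith
  nlinarith [mul_le_mul z1 s1 s0 (by norm_num)]

lemma core {e : ℕ → H} (he : Orthonormal ℝ e) {V : Submodule ℝ H} (hV : ∀ n, e n ∈ V)
    {P : Set (H × ℝ)} (p0 : 0 ∈ P)
    (sep : ∀ p ∈ P, ∀ q ∈ P, p ≠ q → 16 ≤ ‖p.1 - q.1‖ ^ 4 + (p.2 - q.2) ^ 4)
    (den : ∀ z ∈ V, ∃ q ∈ P, ‖q.1 - z‖ ^ 4 + (q.2 - 1) ^ 4 ≤ 4.000004) : False := by
  obtain ⟨k, hk⟩ : ∃ k : ℕ, (k : ℝ) = 180000000000000 := ⟨180000000000000, by norm_num⟩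
  have C : ∀ j : ℕ, ∀ z ∈ V, (∀ᶠ n in atTop, ⟪e n, z⟫ = 0) → ‖z‖ ^ 2 + j * 1e-14 = 1.8 →
      ∃ q ∈ P, (‖q.1 - z‖ ^ 2 + j * 1e-14) ^ 2 + (q.2 - 1) ^ 4 ≤ 4.000004 := fun j => by
    induction j with
    | zero => intro z hz _ _; simpa [← pow_mul] using den z hz
    | succ j ih =>
      intro z hz ho hn
      push_cast at hn ⊢
      have j0 : (0 : ℝ) ≤ j * 1e-14 := by positivity
      have nz : ∀ n, ⟪e n, z⟫ = 0 → ‖z + (1e-7 : ℝ) • e n‖ ^ 2 + j * 1e-14 = 1.8 := fun n h => by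
        rw [norm_add_sq_real, inner_smul_right, real_inner_comm, h, norm_smul, he.1]
        norm_num; linarith
      have F := fin (Q := {q ∈ P | ∃ n, ⟪e n, z⟫ = 0 ∧
        (‖q.1 - (z + (1e-7 : ℝ) • e n)‖ ^ 2 + j * 1e-14) ^ 2 + (q.2 - 1) ^ 4 ≤ 4.000004}) (z := z)
        (by linarith) (fun p hp q hq => sep p hp.1 q hq.1)
        (fun q ⟨hq, n, h1, h2⟩ => by
          simpa using sep q hq 0 p0 (by
            rintro rfl
            rw [Prod.fst_zero, zero_sub, norm_neg, nz n h1] at h2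
            norm_num at h2))
        fun q ⟨_, n, _, h2⟩ => ⟨(1e-7 : ℝ) • e n, by rw [norm_smul, he.1]; norm_num, by
          rw [sub_sub]
          nlinarith [mul_nonneg j0 (sq_nonneg ‖q.1 - (z + (1e-7 : ℝ) • e n)‖), sq_nonneg (j * 1e-14 : ℝ)]⟩
      by_contra! hh
      obtain ⟨n, h1, h2⟩ := (ho.and ((eventually_all_finite F).2 fun q hq => show ∀ᶠ n in atTop,
        4.000004 < (‖q.1 - (z + (1e-7 : ℝ) • e n)‖ ^ 2 + j * 1e-14) ^ 2 + (q.2 - 1) ^ 4 by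
          have t : Tendsto (fun n => ⟪e n, q.1 - z⟫) atTop (𝓝 0) := by
            have := ((he.inner_products_summable (q.1 - z)).tendsto_atTop_zero).sqrt
            simp only [Real.sqrt_sq (norm_nonneg _), Real.sqrt_zero] at this
            exact tendsto_zero_iff_norm_tendsto_zero.2 this
          have : Tendsto (fun n => (‖q.1 - z‖ ^ 2 - 2 * (1e-7 * ⟪e n, q.1 - z⟫) + 1e-14 + j * 1e-14) ^ 2 +
              (q.2 - 1) ^ 4) atTop (𝓝 ((‖q.1 - z‖ ^ 2 - 2 * (1e-7 * 0) + 1e-14 + j * 1e-14) ^ 2 +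
              (q.2 - 1) ^ 4)) := (((((t.const_mul _).const_mul _).const_sub _).add_const _).add_const
                _ |>.pow 2).add_const _
          refine (this.eventually_const_lt ((hh q hq.1).trans_eq (by ring))).mono fun n hn => ?_
          rw [← sub_sub, norm_sub_sq_real, inner_smul_right, real_inner_comm, norm_smul, he.1]
          exact hn.trans_eq (by norm_num))).exists
      obtain ⟨q, hq, h3⟩ := ih (z + (1e-7 : ℝ) • e n) (V.add_mem hz (V.smul_mem _ (hV n))) (by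
        filter_upwards [ho, eventually_gt_atTop n] with i a b
        rw [inner_add_right, inner_smul_right, a, he.2 b.ne']; simp) (nz n h1)
      exact (h2 q ⟨hq, n, h1, h3⟩).not_ge h3
  obtain ⟨q, hq, h⟩ := C k 0 V.zero_mem (by simp) (by rw [hk]; norm_num)
  rw [hk, sub_zero] at h
  have := sep q hq 0 p0 (by rintro rfl; norm_num at h)
  simp only [Prod.fst_zero, Prod.snd_zero, sub_zero] at this
  have n0 := sq_nonneg ‖q.1‖
  have a := abs_le.1 (ab4 (x := q.2 - 1) (c := 0.94) (by norm_num) (by nlinarith))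
  have b : q.2 ^ 4 ≤ 1.94 ^ 4 := by gcongr <;> linarith
  have c : 0 ≤ (q.2 - 1) ^ 4 := by positivity
  have d : ‖q.1‖ ^ 2 ≤ 0.3 := by nlinarith
  nlinarith

end Pool.Agent.H.MP_749e55_an
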